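import Pool.Agent.Lib.MP_81c197_nt.OP.Fin

set_option autoImplicit false

/-!
Prescribed parities for pairs `m`, `A m + 1` without small prime factors, `A` a product of powers of `2` and `3`.

Idea of the proof.  Let `a = 2 ^ i 3 ^ j`, `b = 2 ^ k 3 ^ l`, `λ(n) = (-1) ^ Ω(n)`, and let `e` be the wanted sign.  Take `c`, `c + a`
without prime factors `< q` (`c` at most a power of `q`) with `λ(c) = -1`.  For `c L = 1 + a b M` and `N = L + b M`:
`c L = (a b) M + 1`, `(c + a) L = a N + 1`, `c N = b ((c + a) M) + 1`: three pairs `(n, m)` with `n = A m + 1`.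
If `λ(c + a) = -1`, then one of the pairs has both signs `e`, unless `λ(L) = e`.  If `λ(c + a) = 1`, then one of the pairs
has both signs `e`, unless `λ(M) = -e`.  So it is enough to apply this twice with different signs: in the first case to
`L` and `r L` with a prime `r` that is `1` modulo `210 a b`, and in the second case (for two coprime constants `c₁`, `c₂`) to
`M` and `r M`.  All the linear forms involved (five) have no fixed prime divisor `< q`, and the Brun-Hooley sieve gives many
parameters for which none of them has a prime factor `< q`.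
-/

namespace Pool.Agent.Results.MP_81c197_nt.PrescribedParity

open Finset
open scoped Classical

/-- Let `a = 2 ^ i 3 ^ j`, `b = 2 ^ k 3 ^ l` with `i, k ≥ 1`, `j + l ≥ 1`, and let `s` be a parity.  For some `C`, all
`z ≥ 2` and all `x ≥ z ^ C`, at least `x / z ^ C` of the `n ≤ x` are `A m + 1` with `A ∈ {a, b, a b}`, `m ≥ 1`, all
prime factors of `n m` larger than `z`, and the numbers of prime factors of `n` and of `m` both of parity `s`. -/
theorem result (i j k l : ℕ) (hi : 1 ≤ i) (hk : 1 ≤ k) (hjl : 1 ≤ j + l) (s : ℕ) :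
    ∃ C : ℕ, ∀ z : ℕ, 2 ≤ z → ∀ x : ℕ, z ^ C ≤ x → x ≤ z ^ C * ((Icc 1 x).filter (fun n =>
      ∃ A m : ℕ, (A = 2 ^ i * 3 ^ j ∨ A = 2 ^ k * 3 ^ l ∨ A = 2 ^ (i + k) * 3 ^ (j + l)) ∧
        1 ≤ m ∧ n = A * m + 1 ∧ (∀ p : ℕ, p.Prime → p ∣ n * m → z < p) ∧
        n.primeFactorsList.length % 2 = s % 2 ∧ m.primeFactorsList.length % 2 = s % 2)).card := by
  obtain ⟨C, hC⟩ := Pool.Agent.Lib.MP81c197.OP.main i j k l hi hk hjl s
  refine ⟨C, fun z hz x hx => (hC z hz x hx).trans
    (Nat.mul_le_mul_left _ (Finset.card_le_card ?_))⟩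
  intro n hn
  obtain ⟨hn1, A, hA, m, hm⟩ := Finset.mem_filter.1 hn
  refine Finset.mem_filter.2 ⟨hn1, A, m, ?_, hm⟩
  rwa [Finset.mem_insert, Finset.mem_insert, Finset.mem_singleton] at hA

end Pool.Agent.Results.MP_81c197_nt.PrescribedParity
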